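import Pool.Agent.Q34.GB
import Mathlib.Tactic.IntervalCases

set_option autoImplicit false

namespace Pool.Agent.Results.MP_34a732_nt.FailsAtThirtyOne

open Pool.Agent.Q34

/-- Legendre symbol of the residue modulo `p` of the rational number `r` (for denominator prime
to `p`): `(num * den / p)` -/
def legQ (r : ℚ) (p : ℕ) : ℤ := jacobiSym (r.num * r.den) p

/-- `S_1(p) = ∑_{k<p} C(-1/3,k) C(-1/6,k) (27/16)^k` -/
def S1 (p : ℕ) : ℚ := hs (-1/3) (-1/6) (27/16) p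

/-- `S_2(p) = ∑_{k<p} C(-2/3,k) C(-5/6,k) (27/16)^k` -/
def S2 (p : ℕ) : ℚ := hs (-2/3) (-5/6) (27/16) p

/-- The right side of Q1. -/
def R (p : ℕ) (x y : ℤ) : ℚ :=
  if p % 3 = 1 then - (legQ (-11 + x / y) p : ℚ) * jacobiSym x 11 * (x - p / x)
  else - (1 / 4) * (legQ (-11 + jacobiSym x 11 * x / y) p : ℚ) * (11 * y - p / y)

/-- The assertion of Q1 for the prime `p > 11` with `(p/11) = 1`; the factor
`(-11/16)^((1-(p/3))/2)` is `1` if `p ≡ 1 (mod 3)` and `-11/16` if `p ≡ 2 (mod 3)`. -/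
def Posed (p : ℕ) : Prop :=
  ∀ x y : ℤ, 4 * (p : ℤ) = x ^ 2 + 11 * y ^ 2 →
    Cong p 2 (S1 p) (R p x y) ∧
    Cong p 2 ((if p % 3 = 1 then 1 else -11/16) * S2 p) (R p x y)

/-- Q1 is false: it fails for `p = 31`, `4 * 31 = 5^2 + 11 * 3^2`. -/
theorem result : ¬ ∀ p : ℕ, p.Prime → 11 < p → jacobiSym p 11 = 1 → Posed p := by
  intro h
  have h7 := (h 31 (by norm_num) (by norm_num) (by norm_num) 5 3 (by norm_num)).1
  refine not_cong (by norm_num) ?_ h7
  have e : R 31 5 3 = (-1 * 1) * (5 - 31 / 5) := by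
    unfold R legQ
    have e1 : (-11 + ((5 : ℤ) : ℚ) / ((3 : ℤ) : ℚ)) = -28 / 3 := by norm_num
    rw [if_pos (by norm_num), e1]
    have e2 : ((-28 / 3 : ℚ).num * ((-28 / 3 : ℚ).den : ℤ)) = -84 := by
      norm_num
    rw [e2]
    have e3 : jacobiSym (-84) 31 = 1 := by norm_num
    have e4 : jacobiSym 5 11 = 1 := by norm_num
    rw [e3, e4]
    norm_num
  unfold S1
  rw [← (st_spec _ _ _ _).2, e]
  decide +kernel

end Pool.Agent.Results.MP_34a732_nt.FailsAtThirtyOne
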